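import Pool.Agent.AT12.Stmts2
import Pool.Agent.Helper10_AT8.COH

/-!
# Squad AT12, row CO2: the coherence theorem at the powers of `y`
-/

set_option autoImplicit false

open scoped BigOperators

noncomputable section

namespace Pool.Agent.PP.T12.H1

open Pool.Agent.Helper51_AWC Pool.Agent.Helper79_WRA Pool.Agent.PP Pool.Agent.PP.KF
open Pool.Agent.PP.K9 Pool.Agent.PP.K9.H97 Pool.Agent.PP.H75 Pool.Agent.PP.T3 Pool.Agent.PP.T2
open Pool.Agent.PP.T8 Pool.Agent.PP.T8.H10 Pool.Agent.PP.T12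

attribute [local instance] Ideal.Quotient.field

section sq

variable {ℓ : ℕ} [hℓ : Fact ℓ.Prime] {M : Ideal (integralClosure ℤ ℂ)} [M.IsMaximal]

theorem two_th (hlM : (ℓ : integralClosure ℤ ℂ) ∈ M) (hℓ2 : ℓ ≠ 2) {θ : ℤ}
    (hθ : θ = 1 ∨ θ = -1) : ((θ : FF M) + (θ : FF M)) ≠ 0 := by
  intro h
  have h1 : rr M (((2 * θ : ℤ)) : ℂ) = 0 := by
    rw [(rr_int (M := M) _).2]
    push_cast
    rw [two_mul]
    exact h
  have h2 := (dvd_of_rr (M := M) hℓ.out hlM).1 h1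
  have h3 : (ℓ : ℤ) ∣ 2 := by
    rcases hθ with h | h
    · rwa [h, mul_one] at h2
    · rw [h] at h2
      have : (2 : ℤ) * -1 = -2 := by norm_num
      rwa [this, Int.dvd_neg] at h2
  have h4 : ℓ ∣ 2 := by exact_mod_cast h3
  exact hℓ2 ((Nat.prime_dvd_prime_iff_eq hℓ.out Nat.prime_two).1 h4)

/-- the square root of a number near `1` -/
theorem sq_root (hlM : (ℓ : integralClosure ℤ ℂ) ∈ M) (hℓ2 : ℓ ≠ 2) {x z : ℂ} (hx : x ∈ RM M)
    (hz : z ∈ RM M) {L : ℕ} (h : x ^ 2 = 1 + L * z) {θ : ℤ} (hθ : θ = 1 ∨ θ = -1)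
    (hr : rr M x = (θ : FF M)) : ∃ w ∈ RM M, x = θ + L * w := by
  have hu : x + θ ∈ RM M := add_mem hx (rr_int (M := M) θ).1
  have hru : rr M (x + θ) ≠ 0 := by
    rw [rr_add hx (rr_int (M := M) θ).1, hr, (rr_int (M := M) θ).2]
    exact two_th hlM hℓ2 hθ
  obtain ⟨h1, h2⟩ := inv_RM hu hru
  refine ⟨z * (x + θ)⁻¹, mul_mem hz h1, ?_⟩
  have hθ2 : (θ : ℂ) ^ 2 = 1 := by
    rcases hθ with h | h <;> rw [h] <;> norm_num
  have h3 : (x - θ) * (x + θ) = L * z := by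
    have : (x - θ) * (x + θ) = x ^ 2 - (θ : ℂ) ^ 2 := by ring
    rw [this, h, hθ2]
    ring
  have h4 : x - θ = L * (z * (x + θ)⁻¹) := by
    rw [← mul_assoc, ← h3, mul_assoc, mul_inv_cancel₀ h2, mul_one]
  rw [← h4]
  ring

theorem sq_res (hlM : (ℓ : integralClosure ℤ ℂ) ∈ M) {x z : ℂ} (hx : x ∈ RM M)
    (hz : z ∈ RM M) {L : ℕ} (hL : ℓ ∣ L) (h : x ^ 2 = 1 + L * z) :
    ∃ θ : ℤ, (θ = 1 ∨ θ = -1) ∧ rr M x = (θ : FF M) := by
  have h1 : rr M x * rr M x = 1 := by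
    have h2 : rr M (L : ℂ) = 0 := by
      have := (dvd_of_rr (M := M) hℓ.out hlM (n := (L : ℤ))).2 (by exact_mod_cast hL)
      exact_mod_cast this
    rw [← rr_mul hx hx, ← sq, h, rr_add (one_mem _) (mul_mem (rr_nat (M := M) L).1 hz), rr_one,
      rr_mul (rr_nat (M := M) L).1 hz, h2, zero_mul, add_zero]
  rcases mul_self_eq_one_iff.1 h1 with h | h
  · exact ⟨1, Or.inl rfl, by rw [h]; push_cast; rfl⟩
  · exact ⟨-1, Or.inr rfl, by rw [h]; push_cast; rfl⟩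

end sq

/-- the numbers `Av` are in the local ring -/
theorem av_RM (int2 : C2.Int2Stmt) {ℓ : ℕ} [hℓ : Fact ℓ.Prime]
    {M : Ideal (integralClosure ℤ ℂ)} [M.IsMaximal] {G H : Type} [Group G] [Finite G] [Group H]
    [Finite H] {a : ℕ} {y : G} {π : Cu y →* H} (hq : C2.Qn (ℓ ^ a) y π) {f : H → FF M}
    {p : H → ℂ} (hp : p ∈ ZE M f) (hr : Rc ℓ p) {χ : G → ℂ} (hχ : χ ∈ Irr G) (j : ℕ) :
    Av ℓ π (y ^ j) p χ ∈ RM M := by
  have hζ := Complex.isPrimitiveRoot_exp (ℓ ^ a) (pow_ne_zero a hℓ.out.ne_zero)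
  have hp' : p ∈ ZI H := by
    refine AddSubgroup.closure_mono ?_ hp
    exact fun χ h => h.1
  obtain ⟨n, hn⟩ := int2 ℓ a G H y π hq p hp' hr χ hχ _ hζ
  rw [hn j]
  have hζR : Complex.exp (2 * Real.pi * Complex.I / ((ℓ ^ a : ℕ) : ℂ)) ∈ RM M :=
    RM_of_int (hζ.isIntegral (Nat.pos_of_ne_zero (pow_ne_zero a hℓ.out.ne_zero)))
  exact sum_mem fun i _ => mul_mem (rr_int (M := M) _).1 (pow_mem hζR _)

/-- the value at the powers of `y` -/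
theorem ypart (fsy : FsyStmt) (ccy : CcyStmt) (int2 : C2.Int2Stmt) {ℓ : ℕ} [hℓ : Fact ℓ.Prime]
    {M : Ideal (integralClosure ℤ ℂ)} [M.IsMaximal] (hlM : (ℓ : integralClosure ℤ ℂ) ∈ M)
    (hℓ2 : ℓ ≠ 2) {G H : Type} [Group G] [Finite G] [Group H] [Finite H] {a : ℕ} {e : G → FF M}
    {V : Subgroup G} {γ : G → FF M} (hix : ¬ ℓ ∣ ix V γ) (hab : ∀ a ∈ V, ∀ b ∈ V, a * b = b * a)
    {y : G} {β : G → FF M} {π : Cu y →* H} {m K : ℕ} {g : Fin m → H → ℂ}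
    (S : Sy M ℓ a e V γ y β π m K g) {i : G → ℂ} (hi : Ci M e V γ i) {s : G → ℂ}
    (hs3 : ∀ v ∈ V, ∃ r ∈ RM M, s v ^ 2 * ((ix V γ : ℂ)⁻¹ * T8.cc V γ i v) = 1 + Nat.card V * r)
    (hs4 : ∀ v ∈ V, s v ∈ RM M ∧ rr M (s v) = rr M (s 1)) :
    ∃ θ : ℤ, (θ = 1 ∨ θ = -1) ∧ ∀ χ ∈ Irr G, (∀ v ∈ V, fs V γ i v χ ∈ RM M) → ∀ j : ℕ, ¬ ℓ ∣ j →
      (fs V γ i (y ^ j) χ * s (y ^ j) - θ * bq ℓ π g (y ^ j) χ) / ((m * K + 1 : ℕ) : ℂ) ∈ RM M := by
  classical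
  obtain ⟨L, hL⟩ : ∃ L : ℕ, L = m * K + 1 := ⟨_, rfl⟩
  rw [← hL]
  have hyV : ∀ j : ℕ, y ^ j ∈ V := fun j => V.pow_mem S.mem j
  have hav : ∀ p, ∀ χ ∈ Irr G, ∀ j, Av ℓ π (y ^ j) (g p) χ ∈ RM M := fun p χ hχ j =>
    av_RM int2 S.qn (S.cd.ze p) (S.cd.rc p) hχ j
  have hbq : ∀ χ ∈ Irr G, ∀ j, bq ℓ π g (y ^ j) χ ∈ RM M := fun χ hχ j =>
    sum_mem fun p _ => hav p χ hχ j
  rcases Nat.eq_or_lt_of_le (show 1 ≤ L by omega) with h1 | h1
  · refine ⟨1, Or.inl rfl, fun χ hχ hf j _ => ?_⟩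
    rw [← h1, Nat.cast_one, div_one]
    exact sub_mem (mul_mem (hf _ (hyV j)) (hs4 _ (hyV j)).1)
      (mul_mem (rr_int (M := M) 1).1 (hbq χ hχ j))
  -- the order of the defect group of the quotient
  have hm : 0 < m := by
    rcases Nat.eq_zero_or_pos m with h | h
    · rw [h, zero_mul] at hL
      omega
    · exact h
  have hLV : L ∣ Nat.card V := by
    have h2 : V ≤ Cu y := fun v hv => by
      rw [Subgroup.mem_centralizer_iff]
      rintro x hx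
      rw [Set.mem_singleton_iff.1 hx]
      exact hab y S.mem v hv
    rw [hL, S.cd.mul, ← Nat.card_congr (Subgroup.subgroupOfEquivOfLe h2).toEquiv]
    exact Subgroup.card_map_dvd _ _
  have hℓL : ℓ ∣ L := by
    obtain ⟨n, hn⟩ := IsPGroup.iff_card.1 S.ld.tp.pg
    rw [hn] at hLV
    obtain ⟨k, -, hk⟩ := (Nat.dvd_prime_pow hℓ.out).1 hLV
    rw [hk] at h1 ⊢
    apply dvd_pow_self
    rintro rfl
    rw [pow_zero] at h1
    exact lt_irrefl _ h1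
  have hℓm : ¬ ℓ ∣ m := by
    intro h
    have h2 : ℓ ∣ m * K + 1 := hL ▸ hℓL
    have h3 := (Nat.dvd_add_right (h.mul_right K)).1 h2
    exact hℓ.out.one_lt.ne' (Nat.dvd_one.1 h3)
  obtain ⟨q, hq⟩ := hLV
  obtain ⟨Rp, hRp1, hRp2⟩ := fsy ℓ M hlM G H a e V γ y β π m K g S i hi
  have hcc := ccy ℓ M hlM G H a e V γ y β π m K g S i hi Rp hRp2
  rw [← hL] at hRp1
  obtain ⟨R₀, hR₀⟩ : ∃ R₀ : ℤ, R₀ = Rp ⟨0, hm⟩ := ⟨_, rfl⟩
  have hdv : ∀ p, ∃ t : ℤ, Rp p = R₀ + L * t := by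
    intro p
    obtain ⟨t, ht⟩ := hRp1 p ⟨0, hm⟩
    exact ⟨t, by rw [hR₀]; linarith⟩
  choose r hr using hdv
  have hix0 : (ix V γ : ℂ) ≠ 0 := by
    intro h
    apply hix
    have h1 : ix V γ = 0 := by exact_mod_cast h
    rw [h1]
    exact dvd_zero _
  have hm0 : (m : ℂ) ≠ 0 := by exact_mod_cast hm.ne'
  have hL0 : (L : ℂ) ≠ 0 := by exact_mod_cast (by omega : L ≠ 0)
  have hLc : (L : ℂ) = m * K + 1 := by rw [hL]; push_cast; rfl
  -- the values of the norm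
  obtain ⟨r', hr'⟩ : ∃ r' : ℤ, ∀ j : ℕ, ¬ ℓ ∣ j →
      (ix V γ : ℂ)⁻¹ * T8.cc V γ i (y ^ j) = (R₀ : ℂ) ^ 2 + L * ((m : ℂ)⁻¹ * r') := by
    refine ⟨2 * R₀ * (∑ p, r p) + ∑ p, r p ^ 2 + K * (∑ p, r p) ^ 2, fun j hj => ?_⟩
    have h2 := hcc j hj
    rw [← hL] at h2
    have h3 : ∑ p, (Rp p : ℂ) = m * R₀ + L * ∑ p, (r p : ℂ) := by
      have : ∀ p, (Rp p : ℂ) = R₀ + L * (r p : ℂ) := fun p => by rw [hr p]; push_cast; rfl
      rw [Finset.sum_congr rfl fun p _ => this p, Finset.sum_add_distrib, Finset.sum_const,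
        Finset.card_univ, Fintype.card_fin, nsmul_eq_mul, Finset.mul_sum]
    have h4 : ∑ p, (Rp p : ℂ) ^ 2 =
        m * (R₀ : ℂ) ^ 2 + 2 * L * R₀ * (∑ p, (r p : ℂ)) + (L : ℂ) ^ 2 * ∑ p, (r p : ℂ) ^ 2 := by
      have : ∀ p, (Rp p : ℂ) ^ 2 = (R₀ : ℂ) ^ 2 + 2 * L * R₀ * (r p : ℂ) +
          (L : ℂ) ^ 2 * (r p : ℂ) ^ 2 := fun p => by
        rw [hr p]
        push_cast
        ring
      rw [Finset.sum_congr rfl fun p _ => this p, Finset.sum_add_distrib, Finset.sum_add_distrib,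
        Finset.sum_const, Finset.card_univ, Fintype.card_fin, nsmul_eq_mul, Finset.mul_sum,
        Finset.mul_sum]
    rw [h3, h4] at h2
    have h5 : T8.cc V γ i (y ^ j) = ix V γ * ((m * (R₀ : ℂ) ^ 2 + 2 * L * R₀ * (∑ p, (r p : ℂ)) +
        (L : ℂ) ^ 2 * (∑ p, (r p : ℂ) ^ 2) + K * (m * R₀ + L * ∑ p, (r p : ℂ)) ^ 2) / (m * L)) := by
      field_simp
      linear_combination h2
    rw [h5, inv_mul_cancel_left₀ hix0]
    push_cast
    generalize ∑ p, (r p : ℂ) = ρ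
    generalize ∑ p, (r p : ℂ) ^ 2 = ρ₂
    field_simp
    rw [hLc]
    ring
  -- the square
  have hsq : ∀ j : ℕ, ¬ ℓ ∣ j → ∃ z ∈ RM M, (s (y ^ j) * R₀) ^ 2 = 1 + L * z := by
    intro j hj
    obtain ⟨t, ht, h2⟩ := hs3 (y ^ j) (hyV j)
    rw [hr' j hj] at h2
    refine ⟨q * t - s (y ^ j) ^ 2 * ((m : ℂ)⁻¹ * r'), sub_mem (mul_mem (rr_nat (M := M) q).1 ht)
      (mul_mem (pow_mem (hs4 _ (hyV j)).1 2) (mul_mem (inv_nat_RM hℓ.out hlM hℓm)
        (rr_int (M := M) _).1)), ?_⟩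
    have h3 : ((Nat.card V : ℕ) : ℂ) = L * q := by rw [hq]; push_cast; rfl
    rw [h3] at h2
    linear_combination h2
  have hsR : ∀ j : ℕ, s (y ^ j) * R₀ ∈ RM M := fun j =>
    mul_mem (hs4 _ (hyV j)).1 (rr_int (M := M) _).1
  have hone : ¬ ℓ ∣ 1 := fun h => hℓ.out.one_lt.ne' (Nat.dvd_one.1 h)
  obtain ⟨z₁, hz₁, hz₁'⟩ := hsq 1 hone
  obtain ⟨θ, hθ, hθr⟩ := sq_res hlM (hsR 1) hz₁ hℓL hz₁'
  refine ⟨θ, hθ, fun χ hχ hf j hj => ?_⟩
  have hres : rr M (s (y ^ j) * R₀) = (θ : FF M) := by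
    rw [← hθr, rr_mul (hs4 _ (hyV j)).1 (rr_int (M := M) _).1,
      rr_mul (hs4 _ (hyV 1)).1 (rr_int (M := M) _).1, (hs4 _ (hyV j)).2, (hs4 _ (hyV 1)).2]
  obtain ⟨z, hz, hz'⟩ := hsq j hj
  obtain ⟨w, hw, hw'⟩ := sq_root hlM hℓ2 (hsR j) hz hz' hθ hres
  have h2 : (fs V γ i (y ^ j) χ * s (y ^ j) - θ * bq ℓ π g (y ^ j) χ) / (L : ℂ) =
      w * bq ℓ π g (y ^ j) χ + s (y ^ j) * ∑ p, (r p : ℂ) * Av ℓ π (y ^ j) (g p) χ := by
    rw [div_eq_iff hL0, hRp2 j hj χ hχ]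
    have h3 : ∑ p, (Rp p : ℂ) * Av ℓ π (y ^ j) (g p) χ = R₀ * bq ℓ π g (y ^ j) χ +
        L * ∑ p, (r p : ℂ) * Av ℓ π (y ^ j) (g p) χ := by
      unfold bq
      rw [Finset.mul_sum, Finset.mul_sum, ← Finset.sum_add_distrib]
      refine Finset.sum_congr rfl fun p _ => ?_
      rw [hr p]
      push_cast
      ring
    rw [h3]
    linear_combination (bq ℓ π g (y ^ j) χ) * hw'
  rw [h2]
  exact add_mem (mul_mem hw (hbq χ hχ j)) (mul_mem (hs4 _ (hyV j)).1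
    (sum_mem fun p _ => mul_mem (rr_int (M := M) _).1 (hav p χ hχ j)))

/-- CO2 -/
theorem co2 (se2 : Se2Stmt) (fsy : FsyStmt) (ccy : CcyStmt) (cid : CidStmt) (csq : CsqStmt)
    (fch : FchStmt) (rva : RvaStmt) (geq : GeqStmt) (dpw : DpwStmt) (int2 : C2.Int2Stmt) :
    Co2Stmt := by
  classical
  intro ℓ hℓ M _ hlM hℓ2 G H _ _ _ _ N gs e V γ b d c ε D hex a y β π m K g S
  have hab := D.ld.ab
  obtain ⟨rconst, rring, rcard, rval, rconj, rcongr⟩ := rva M G V hab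
  obtain ⟨u₀, hu₀⟩ := hex
  obtain ⟨i, hi⟩ := cid ℓ M hlM G e V γ D.ld
  obtain ⟨R, hR⟩ := csq ℓ M hlM hℓ2 G e V γ b d c ε D i hi
  obtain ⟨κ, hκ, hκ1, -⟩ := H50.exists_irr_blk D.ld.gam.blk
  have hκE : κ ∈ IrrE M (fun t : Subgroup.centralizer (V : Set G) => γ t) := ⟨hκ, hκ1⟩
  have hnz := hi.nz κ hκE
  set ρ := rr M (∑ᶠ t : Subgroup.centralizer (V : Set G), i t * κ t) with hρ
  have := Fintype.ofFinite G
  have := Fintype.ofFinite (Tg V γ ⧸ (Subgroup.centralizer (V : Set G)).subgroupOf (Tg V γ))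
  have hfin : (Irr G).Finite := Set.toFinite _
  -- the inertial index
  have hix : ¬ ℓ ∣ ix V γ := H34.inx ℓ M hlM G e D.ld.blk V D.ld.tp hab γ D.ld.gam.supp
    D.ld.gam.blk D.ld.und
  have hixF : (ix V γ : FF M) ≠ 0 := by
    intro h
    apply hix
    have h1 := (dvd_of_rr (M := M) hℓ.out hlM (n := (ix V γ : ℤ))).1 (by
      rw [(rr_int (M := M) _).2]
      exact_mod_cast h)
    exact_mod_cast h1
  have hix0 : (ix V γ : ℂ) ≠ 0 := by
    intro h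
    apply hix
    have h1 : ix V γ = 0 := by exact_mod_cast h
    rw [h1]
    exact dvd_zero _
  have hTN : ∀ q : Tg V γ, (q : G) ∈ Subgroup.normalizer (V : Set G) := fun q => q.2.1
  -- the functions `fs`
  have hfv : ∀ ψ ∈ Irr G, Rv M V (fun z => fv i z ψ) := by
    intro ψ hψ lam
    obtain ⟨m, hm⟩ := fch M G V hab i hi.ip ψ hψ lam
    rw [hm]
    exact (rr_nat (M := M) m).1
  have hfseq : ∀ ψ : G → ℂ, ∀ z, fs V γ i z ψ =
      ∑ q : Tg V γ ⧸ (Subgroup.centralizer (V : Set G)).subgroupOf (Tg V γ),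
        fv i ((q.out : G) * z * (q.out : G)⁻¹) ψ := fun ψ z => by
    unfold fs
    rw [finsum_eq_sum_of_fintype]
  have hfs : ∀ ψ ∈ Irr G, Rv M V (fun z => fs V γ i z ψ) := by
    intro ψ hψ
    have h1 := rv_sum M rva V hab Finset.univ
      (fun (q : Tg V γ ⧸ (Subgroup.centralizer (V : Set G)).subgroupOf (Tg V γ)) z =>
        fv i ((q.out : G) * z * (q.out : G)⁻¹) ψ)
      (fun q _ => rconj _ (hfv ψ hψ) _ (hTN q.out))
    have h2 : (fun z => fs V γ i z ψ) = fun z =>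
        ∑ q : Tg V γ ⧸ (Subgroup.centralizer (V : Set G)).subgroupOf (Tg V γ),
          fv i ((q.out : G) * z * (q.out : G)⁻¹) ψ := funext fun z => hfseq ψ z
    rw [h2]
    exact h1
  -- the mean values
  have hmean : ∀ ψ ∈ Irr G, ((Nat.card V : ℂ)⁻¹ * ∑ᶠ v : V, fs V γ i v ψ) ∈ RM M := by
    intro ψ hψ
    obtain ⟨m, hm⟩ := fch M G V hab i hi.ip ψ hψ 1
    have h1 : ∑ᶠ v : V, fs V γ i v ψ =
        ∑ q : Tg V γ ⧸ (Subgroup.centralizer (V : Set G)).subgroupOf (Tg V γ),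
          ∑ᶠ v : V, fv i v ψ := by
      have := Fintype.ofFinite V
      rw [finsum_eq_sum_of_fintype]
      simp_rw [hfseq]
      rw [Finset.sum_comm]
      refine Finset.sum_congr rfl fun q _ => ?_
      rw [← sum_conj V (hTN q.out) (fun z => fv i z ψ), finsum_eq_sum_of_fintype]
    have h2 : ∑ᶠ v : V, fv i v ψ * (1 : V →* ℂ) v⁻¹ = ∑ᶠ v : V, fv i v ψ :=
      finsum_congr fun v => by rw [MonoidHom.one_apply, mul_one]
    rw [h2] at hm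
    rw [h1, Finset.sum_const, nsmul_eq_mul, mul_left_comm, hm]
    exact (RM M).mul_mem (rr_nat (M := M) _).1 (rr_nat (M := M) _).1
  have hcceq : ∀ z, T8.cc V γ i z = ∑ ψ ∈ hfin.toFinset,
      ((Nat.card V : ℂ)⁻¹ * ∑ᶠ v : V, fs V γ i v ψ) * fs V γ i z ψ := by
    intro z
    unfold T8.cc
    rw [finsum_mem_eq_finite_toFinset_sum _ hfin]
  have hcc : Rv M V (fun z => T8.cc V γ i z) := by
    have h2 : (fun z => T8.cc V γ i z) = fun z => ∑ ψ ∈ hfin.toFinset,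
        ((Nat.card V : ℂ)⁻¹ * ∑ᶠ v : V, fs V γ i v ψ) * fs V γ i z ψ := funext hcceq
    rw [h2]
    refine rv_sum M rva V hab _ _ fun ψ hψ => ?_
    have hψ' := hfin.mem_toFinset.1 hψ
    exact (rring _ _ (rconst _ (hmean ψ hψ')) (hfs ψ hψ')).2
  set g₀ : G → ℂ := fun z => (ix V γ : ℂ)⁻¹ * T8.cc V γ i z with hg
  have hgR : Rv M V g₀ := (rring _ _ (rconst _ (inv_nat_RM hℓ.out hlM hix)) hcc).2
  -- the integers `R'`
  have hε : ∀ u, Rg V γ u → ε u * ε u = 1 := fun u hu => by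
    rcases D.sg u hu with h | h <;> rw [h] <;> norm_num
  set R' : G → ℤ := fun u => ε u * R u with hR'
  have hRρ : ∀ u, Rg V γ u → rr M ((R' u : ℤ) : ℂ) = ix V γ * ρ := by
    intro u hu
    rw [(rr_int (M := M) _).2, ← (hR u hu).2.1 κ hκE]
    rw [hR', mul_comm]
  have hn : ¬ (ℓ : ℤ) ∣ R' u₀ := by
    intro h
    have h1 := (dvd_of_rr (M := M) hℓ.out hlM (n := R' u₀)).2 h
    rw [hRρ u₀ hu₀] at h1
    exact mul_ne_zero hixF hnz h1
  have hX : ∀ y ∈ {u | Rg V γ u}, y ∈ V ∧ g₀ y = (R' y : ℂ) ^ 2 ∧ (ℓ : ℤ) ∣ R' y - R' u₀ := by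
    intro y hy
    have hy' : Rg V γ y := hy
    refine ⟨hy'.1, ?_, ?_⟩
    · have h1 := hε y hy'
      have h2 : (ε y : ℂ) * (ε y : ℂ) = 1 := by exact_mod_cast h1
      rw [hg, hR']
      show (ix V γ : ℂ)⁻¹ * T8.cc V γ i y = ((ε y * R y : ℤ) : ℂ) ^ 2
      rw [(hR y hy').2.2, inv_mul_cancel_left₀ hix0]
      push_cast
      rw [mul_pow, pow_two (ε y : ℂ), h2, one_mul]
    · refine (dvd_of_rr (M := M) hℓ.out hlM).1 ?_
      push_cast
      rw [rr_sub (M := M) (rr_int (M := M) _).1 (rr_int (M := M) _).1, hRρ y hy', hRρ u₀ hu₀,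
        sub_self]
  obtain ⟨s, hsR, hs1, hs3, hs4, hs2⟩ := se2 ℓ M hlM hℓ2 G V D.ld.tp.pg hab g₀ hgR
    {u | Rg V γ u} R' (R' u₀) hn ⟨u₀, hu₀⟩ hX
  obtain ⟨θ, hθ, hθy⟩ := ypart fsy ccy int2 hlM hℓ2 hix D.ld.ab S hi hs3 hs4
  refine ⟨θ, hθ, fun χ hχ => ?_⟩
  refine ⟨fun z => fs V γ i z χ * s z, (rring _ _ (hfs χ hχ) hsR).2, fun u hu => ?_, ?_, ?_⟩
  · have h1 := hs1 u hu
    have h2 : (ε u : ℂ) * (ε u : ℂ) = 1 := by exact_mod_cast hε u hu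
    have h3 : s u * R u = ε u := by
      have h4 : s u * ((ε u : ℂ) * R u) = 1 := by
        rw [← h1, hR']
        push_cast
        rfl
      calc s u * R u = ((ε u : ℂ) * ε u) * (s u * R u) := by rw [h2, one_mul]
        _ = ε u * (s u * ((ε u : ℂ) * R u)) := by ring
        _ = ε u := by rw [h4, mul_one]
    show fs V γ i u χ * s u = _
    rw [(hR u hu).1 χ hχ, ← h3]
    ring
  -- the power map
  · intro hχN v hv
    have hpw : ∀ ψ ∈ Irr G, ∀ z ∈ V, fs V γ i (z ^ N) ψ = fs V γ i z (fun g => ψ (g ^ N)) := by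
      intro ψ hψ z hz
      rw [hfseq, hfseq]
      refine Finset.sum_congr rfl fun q _ => ?_
      have h1 : (q.out : G) * z ^ N * (q.out : G)⁻¹ = ((q.out : G) * z * (q.out : G)⁻¹) ^ N :=
        conj_pow.symm
      rw [h1]
      exact geq ℓ M hlM G N gs V D.ld.tp.pg hab i hi.ip ψ hψ _
        ((Subgroup.mem_normalizer_iff.1 (hTN q.out) z).1 hz)
    have hchi : (fun g => χ (g ^ N)) = χ := funext hχN
    have hgN : ∀ v ∈ V, g₀ (v ^ N) = g₀ v := by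
      intro v hv
      rw [hg]
      show (ix V γ : ℂ)⁻¹ * T8.cc V γ i (v ^ N) = (ix V γ : ℂ)⁻¹ * T8.cc V γ i v
      rw [hcceq, hcceq]
      congr 1
      have hinj : Set.InjOn (fun (ψ : G → ℂ) (g : G) => ψ (g ^ N)) (Irr G) := by
        intro ψ₁ _ ψ₂ _ h
        funext x
        obtain ⟨y, hy⟩ := (H23.pow_bij gs.cop).2 x
        have h1 := congrFun h y
        have hy' : y ^ N = x := hy
        simp only [hy'] at h1
        exact h1
      have hmaps : ∀ ψ ∈ hfin.toFinset, (fun g : G => ψ (g ^ N)) ∈ hfin.toFinset := fun ψ hψ =>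
        hfin.mem_toFinset.2 (H23.irr_pow ada_ gs.cop (hfin.mem_toFinset.1 hψ))
      have himg : hfin.toFinset.image (fun (ψ : G → ℂ) (g : G) => ψ (g ^ N)) = hfin.toFinset := by
        refine Finset.eq_of_subset_of_card_le ?_ ?_
        · intro ψ hψ
          obtain ⟨ψ', h1, h2⟩ := Finset.mem_image.1 hψ
          rw [← h2]
          exact hmaps ψ' h1
        · rw [Finset.card_image_of_injOn]
          intro a ha b hb h
          exact hinj (hfin.mem_toFinset.1 ha) (hfin.mem_toFinset.1 hb) h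
      have h3 : ∑ ψ ∈ hfin.toFinset, ((Nat.card V : ℂ)⁻¹ * ∑ᶠ w : V, fs V γ i w ψ) *
          fs V γ i v ψ = ∑ ψ ∈ hfin.toFinset, ((Nat.card V : ℂ)⁻¹ * ∑ᶠ w : V,
            fs V γ i w (fun g => ψ (g ^ N))) * fs V γ i v (fun g => ψ (g ^ N)) := by
        conv_lhs => rw [← himg]
        rw [Finset.sum_image]
        intro a ha b hb h
        exact hinj (hfin.mem_toFinset.1 ha) (hfin.mem_toFinset.1 hb) h
      rw [h3]
      refine Finset.sum_congr rfl fun ψ hψ => ?_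
      have hψ' := hfin.mem_toFinset.1 hψ
      rw [hpw ψ hψ' v hv]
      have h4 : ∑ᶠ w : V, fs V γ i w (fun g => ψ (g ^ N)) = ∑ᶠ w : V, fs V γ i w ψ := by
        rw [← sum_pow V gs.cop (fun z => fs V γ i z ψ)]
        exact finsum_congr fun w => (hpw ψ hψ' w w.2).symm
      rw [h4]
    have hlN : ¬ ℓ ∣ N := by
      intro h
      have h1 : ℓ ∣ Nat.card V := by
        have h2 : Nat.card V ≠ 1 := by
          intro h2
          have h3 := Subgroup.eq_bot_of_card_eq V h2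
          rw [h3] at hu₀
          exact hu₀.2.1 (Subgroup.mem_bot.1 hu₀.1)
        obtain ⟨n, hn⟩ := IsPGroup.iff_card.1 D.ld.tp.pg
        rw [hn] at h2 ⊢
        have h3 : n ≠ 0 := fun h => h2 (by rw [h, pow_zero])
        exact dvd_pow_self ℓ h3
      have h2 := gs.cop
      have h3 := Nat.dvd_gcd h (h1.trans (Subgroup.card_subgroup_dvd_card V))
      rw [h2] at h3
      exact hℓ.out.one_lt.ne' (Nat.dvd_one.1 h3)
    have hXN : ∀ v ∈ V, v ^ N ∈ {u | Rg V γ u} ↔ v ∈ {u | Rg V γ u} := fun v hv =>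
      (dpw ℓ M hlM hℓ2 G e V γ b d c ε D).2.2 v hv N hlN
    show fs V γ i (v ^ N) χ * s (v ^ N) = fs V γ i v χ * s v
    rw [hs2 N hgN hXN v hv, hpw χ hχ v hv, hchi]
  · intro j hj
    have hyV : y ^ j ∈ V := V.pow_mem S.mem j
    exact hθy χ hχ (fun v hv => rval _ (hfs χ hχ) v hv) j hj

end Pool.Agent.PP.T12.H1
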