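import Pool.Agent.AT12.Stmts3
import Pool.Agent.Helper82_C2.LBU
import Pool.Agent.Helper85_AT3.LSB
import Pool.Agent.Helper37_AT8.FQT
import Pool.Agent.Helper25_AT8.TC8

/-!
# Squad AT12, row SYX: existence of the structure `Sy`
-/

set_option autoImplicit false

open scoped BigOperators

noncomputable section

namespace Pool.Agent.PP.T12.H1

open Pool.Agent.Helper51_AWC Pool.Agent.Helper79_WRA Pool.Agent.PP Pool.Agent.PP.KF
open Pool.Agent.PP.K9 Pool.Agent.PP.K9.H97 Pool.Agent.PP.H75 Pool.Agent.PP.T3 Pool.Agent.PP.T2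
open Pool.Agent.PP.T8 Pool.Agent.PP.T12

attribute [local instance] Ideal.Quotient.field

section quo

variable {A B : Type} [Group A] [Group B]

theorem norm_ker (π : A →* B) : Subgroup.normalizer ((π.ker : Subgroup A) : Set A) = ⊤ := by
  rw [eq_top_iff]
  intro x _
  rw [Subgroup.mem_normalizer_iff]
  intro h
  rw [MonoidHom.mem_ker, MonoidHom.mem_ker, map_mul, map_mul, map_inv]
  constructor
  · intro h1
    rw [h1, mul_one, mul_inv_cancel]
  · intro h1
    have h2 : π h = (π x)⁻¹ * (π x * π h * (π x)⁻¹) * π x := by group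
    rw [h2, h1, mul_one, inv_mul_cancel]

/-- the image of a function under the restriction to the full subgroup -/
theorem push_top {F : Type} [Field F] (π : A →* B) {N : Subgroup A} (hN : N = ⊤) (b : A → F) :
    push (π.comp N.subtype) (fun t : N => b t) = push π b := by
  subst hN
  funext y
  unfold push
  rw [← finsum_comp_equiv (Subgroup.topEquiv : (⊤ : Subgroup A) ≃* A).toEquiv]
  rfl

theorem map_top (π : A →* B) {N : Subgroup A} (hN : N = ⊤) (V : Subgroup A) :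
    (V.subgroupOf N).map (π.comp N.subtype) = V.map π := by
  rw [← Subgroup.map_map, Subgroup.subgroupOf_map_subtype, hN, inf_top_eq]

/-- the image of the defect group -/
theorem tp_quo {F : Type} [Field F] {ℓ : ℕ} [Fact ℓ.Prime] (hF : GoodF ℓ F) [Finite A] [Finite B]
    {p : A →* B} (hps : Function.Surjective p) (hkp : IsPGroup ℓ p.ker) {b : A → F}
    (hb : IsIdem b) {V : Subgroup A} (hV : Tp ℓ b V) (hQV : p.ker ≤ V) :
    Tp ℓ (push p b) (V.map p) := by
  have hVc : (V.map p).comap p = V := Subgroup.comap_map_eq_self hQV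
  have hV'g : Gd (push p b) (V.map p) :=
    (H02.pug ℓ F hF _ _ p hps hkp b hb V hQV hV.pg).1 hV.gd
  refine ⟨hV.pg.map p, hV'g, ?_⟩
  intro R hR hRg
  have k1 : p.ker ≤ R.comap p := by
    intro x hx
    rw [MonoidHom.mem_ker] at hx
    rw [Subgroup.mem_comap, hx]
    exact R.one_mem
  have k2 : IsPGroup ℓ (R.comap p) := (PP.H75.isPGroup_comap_iff hps hkp R).2 hR
  have k3 := (H02.pug ℓ F hF _ _ p hps hkp b hb (R.comap p) k1 k2).2 (by
    rw [Subgroup.map_comap_eq_self_of_surjective hps]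
    exact hRg)
  have k4 := hV.mx _ k2 k3
  rw [← hVc, PP.H75.card_comap hps, PP.H75.card_comap hps] at k4
  exact Nat.le_of_mul_le_mul_left k4 Nat.card_pos

end quo

/-- the structure for a given homomorphism `π` -/
theorem syx_core (lby : LbyStmt) (stf : StfStmt) (lsb : T3.LsbStmt) (psg : T3.PsgStmt)
    (qt3 : T8.Qt3Stmt) (lfr : T8.LfrStmt) (ℓ : ℕ) [Fact ℓ.Prime]
    (M : Ideal (integralClosure ℤ ℂ)) [M.IsMaximal] (hM : (ℓ : integralClosure ℤ ℂ) ∈ M)
    (hℓ2 : ℓ ≠ 2) (G H : Type) [Group G] [Finite G] [Group H] [Finite H] (e : G → FF M)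
    (V : Subgroup G) (γ : G → FF M) (hL : Ld ℓ e V γ) (y w : G) (m : ℕ) (hC : Cs ℓ V γ y w m)
    (β : G → FF M) (hβ : Lc e V γ y β) (π : Cu y →* H) (hQ : C2.Qn (ℓ ^ 2) y π) :
    ∃ (K : ℕ) (g : Fin m → H → ℂ), Sy M ℓ 2 e V γ y β π m K g := by
  have hpr : ℓ.Prime := Fact.out
  have hF : GoodF ℓ (FF M) := H50.fld ℓ Fact.out M hM
  have hVC : V ≤ Cu y := fun v hv =>
    Subgroup.mem_centralizer_singleton_iff.2 (hL.ab v hv y hC.yV)
  have hCX : Subgroup.centralizer (V : Set G) ≤ Cu y := fun g hg =>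
    Subgroup.mem_centralizer_singleton_iff.2 (Subgroup.mem_centralizer_iff.1 hg y hC.yV).symm
  obtain ⟨hL1, hix1, hcard1, -, -⟩ := lsb ℓ M hM G e V γ hL y hC.yV β hβ
  have hTg := T3.H85.Tg_eq hVC hCX hL.gam.supp
  obtain ⟨V1, hV1⟩ : ∃ V1 : Subgroup (Cu y), V1 = V.subgroupOf (Cu y) := ⟨_, rfl⟩
  obtain ⟨b, hb⟩ : ∃ b : Cu y → FF M, b = fun t : Cu y => β t := ⟨_, rfl⟩
  obtain ⟨g1, hg1⟩ : ∃ g1 : Cu y → FF M, g1 = fun t : Cu y => γ t := ⟨_, rfl⟩
  rw [← hV1, ← hb, ← hg1] at hL1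
  rw [← hV1, ← hg1, hC.ind] at hix1
  rw [← hV1, ← hg1] at hTg
  rw [← hV1, hC.card] at hcard1
  -- the kernel
  have hkm : ∀ c : Cu y, c ∈ π.ker ↔ (c : G) ∈ Subgroup.zpowers y := fun c => by
    rw [MonoidHom.mem_ker]
    exact hQ.ker c
  have hyC : y ∈ Cu y := hVC hC.yV
  have hkz : π.ker = Subgroup.zpowers (⟨y, hyC⟩ : Cu y) := by
    ext c
    rw [hkm, Subgroup.mem_zpowers_iff, Subgroup.mem_zpowers_iff]
    constructor
    · rintro ⟨i, hi⟩
      exact ⟨i, Subtype.ext hi⟩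
    · rintro ⟨i, hi⟩
      exact ⟨i, congrArg Subtype.val hi⟩
  have hkc : π.ker ≤ Subgroup.center (Cu y) := by
    rw [hkz, Subgroup.zpowers_le, Subgroup.mem_center_iff]
    intro g
    apply Subtype.ext
    exact Subgroup.mem_centralizer_singleton_iff.1 g.2
  have hQV : π.ker ≤ V1 := by
    rw [hkz, Subgroup.zpowers_le, hV1, Subgroup.mem_subgroupOf]
    exact hC.yV
  have hkp : IsPGroup ℓ π.ker := hL1.tp.pg.to_le hQV
  have hkcard : Nat.card π.ker = ℓ ^ 2 := by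
    rw [hkz, Nat.card_zpowers, Subgroup.orderOf_mk]
    exact hC.oy
  have hbl : IsBlk (push π b) := psg ℓ (FF M) hF (Cu y) H π hQ.sur hkc hkp b hL1.blk
  have hVc : (V1.map π).comap π = V1 := Subgroup.comap_map_eq_self hQV
  have hTp : Tp ℓ (push π b) (V1.map π) := tp_quo hF hQ.sur hkp hL1.blk.1 hL1.tp hQV
  have hW : Nat.card (V1.map π) = ℓ ^ 2 := by
    have h1 := PP.H75.card_comap hQ.sur (V1.map π)
    rw [hVc, hcard1, hkcard] at h1
    have h2 : ℓ ^ 4 = ℓ ^ 2 * ℓ ^ 2 := by ring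
    rw [h2] at h1
    exact (Nat.eq_of_mul_eq_mul_left (pow_pos hpr.pos 2) h1).symm
  have hWcyc : IsCyclic (V1.map π) := by
    have h1 : V1.map π = Subgroup.zpowers (π ⟨w, hVC hC.wV⟩) := by
      apply le_antisymm
      · rintro _ ⟨v, hv, rfl⟩
        rw [hV1] at hv
        obtain ⟨i, k, hik⟩ := hC.gen v hv
        have h2 : v = (⟨y, hyC⟩ : Cu y) ^ i * (⟨w, hVC hC.wV⟩ : Cu y) ^ k := Subtype.ext hik
        have h3 : π (⟨y, hyC⟩ : Cu y) = 1 := (hQ.ker _).2 (Subgroup.mem_zpowers y)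
        rw [h2, map_mul, map_pow, map_pow, h3, one_pow, one_mul]
        exact pow_mem (Subgroup.mem_zpowers _) k
      · rw [Subgroup.zpowers_le]
        exact ⟨⟨w, hVC hC.wV⟩, by rw [hV1]; exact hC.wV, rfl⟩
    rw [h1]
    infer_instance
  have hWne : V1.map π ≠ ⊥ := by
    intro h
    rw [h, Subgroup.card_bot] at hW
    exact absurd hW.symm (Nat.one_lt_pow (by norm_num) hpr.one_lt).ne'
  -- the inertial group
  have hN := norm_ker π
  have hker' : (π.comp (Subgroup.normalizer ((π.ker : Subgroup (Cu y)) : Set (Cu y))).subtype).ker =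
      π.ker.subgroupOf (Subgroup.normalizer ((π.ker : Subgroup (Cu y)) : Set (Cu y))) := by
    ext x
    rw [MonoidHom.mem_ker, Subgroup.mem_subgroupOf, MonoidHom.mem_ker]
    rfl
  have hsur' : Function.Surjective
      (π.comp (Subgroup.normalizer ((π.ker : Subgroup (Cu y)) : Set (Cu y))).subtype) := by
    intro h
    obtain ⟨x, hx⟩ := hQ.sur h
    exact ⟨⟨x, by rw [hN]; exact Subgroup.mem_top x⟩, hx⟩
  have hbr : br π.ker b = b := by
    funext x
    apply H66.br_of_mem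
    rw [Subgroup.mem_centralizer_iff]
    intro z hz
    exact (Subgroup.mem_center_iff.1 (hkc hz) x).symm
  have hpush : push (π.comp
      (Subgroup.normalizer ((π.ker : Subgroup (Cu y)) : Set (Cu y))).subtype)
      (fun t : Subgroup.normalizer ((π.ker : Subgroup (Cu y)) : Set (Cu y)) =>
        br π.ker b t) = push π b := by
    rw [hbr]
    exact push_top π hN b
  have hmap := map_top π hN V1
  obtain ⟨δ, hLδ, hFe⟩ := qt3 ℓ M hM (Cu y) b V1 g1 hL1 π.ker hQV H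
    (π.comp (Subgroup.normalizer ((π.ker : Subgroup (Cu y)) : Set (Cu y))).subtype) hsur' hker'
    (push π b) hbl (by rw [hpush]; exact hbl.1.2) (by rw [hmap]; exact hTp)
  have hFq := T8.H37.fq_quot hL1.ab hQV _ δ hFe
  rw [hmap] at hLδ hFe hFq
  have hle : ix (V1.map π) δ ≤ m := by
    have h1 := T8.H25.ix_le hFq
    rwa [hix1] at h1
  -- freeness
  have hfr : Fr (V1.map π) δ := by
    intro t' ht' v' hv' hv1 hcm
    obtain ⟨n, hn, hFn⟩ := hFe
    obtain ⟨t, ht, hact⟩ := hFn t' ht'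
    have htop : ∀ x : Cu y,
        x ∈ Subgroup.normalizer ((π.ker : Subgroup (Cu y)) : Set (Cu y)) := fun x => by
      rw [hN]
      exact Subgroup.mem_top x
    have hact' : ∀ v ∈ V1, π (n * (t * v * t⁻¹) * n⁻¹) = t' * π (n * v * n⁻¹) * t'⁻¹ :=
      fun v hv => hact v hv ⟨_, htop _⟩ ⟨_, htop _⟩ rfl rfl
    rw [hTg, Subgroup.mem_subgroupOf] at ht
    have htT : (t : G) ∈ Tg V γ := ht.1
    have hty : (t : G) * y = y * t := Subgroup.mem_centralizer_singleton_iff.1 t.2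
    obtain ⟨μ, hμ⟩ := hC.act t htT hty
    obtain ⟨x, hx, rfl⟩ := hv'
    obtain ⟨v, hv⟩ : ∃ v : Cu y, v = n⁻¹ * x * n := ⟨_, rfl⟩
    have hvV : v ∈ V1 := by
      rw [hv]
      have h1 := (Subgroup.mem_normalizer_iff.1 (inv_mem hn) x).1 hx
      rwa [inv_inv] at h1
    have hxv : x = n * v * n⁻¹ := by rw [hv]; group
    have hvV' : (v : G) ∈ V := by
      rw [hV1] at hvV
      exact hvV
    obtain ⟨i, k, hik⟩ := hC.gen v hvV'
    have hvy : v = (⟨y, hyC⟩ : Cu y) ^ i * (⟨w, hVC hC.wV⟩ : Cu y) ^ k := Subtype.ext hik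
    have hyk : (⟨y, hyC⟩ : Cu y) ^ i ∈ π.ker := by
      rw [hkz]
      exact pow_mem (Subgroup.mem_zpowers _) i
    -- `k` is not divisible by `ℓ ^ 2`
    have hk : ¬ ℓ ^ 2 ∣ k := by
      rintro ⟨j, rfl⟩
      apply hv1
      have h1 : (⟨w, hVC hC.wV⟩ : Cu y) ^ (ℓ ^ 2 * j) = 1 := by
        apply Subtype.ext
        change w ^ (ℓ ^ 2 * j) = 1
        rw [pow_mul, ← hC.ow, pow_orderOf_eq_one, one_pow]
      rw [h1, mul_one] at hvy
      have h2 : v ∈ π.ker := by rw [hvy]; exact hyk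
      rw [hxv, map_mul, map_mul, MonoidHom.mem_ker.1 h2, mul_one, map_inv, mul_inv_cancel]
    -- `t` fixes the coset of `v`
    have h1 : π (n * (t * v * t⁻¹) * n⁻¹) = π (n * v * n⁻¹) := by
      rw [hact' v hvV, ← hxv, hcm, mul_inv_cancel_right]
    have h2 : π (t * v * t⁻¹) = π v := by
      rw [map_mul, map_mul π _ n⁻¹, map_mul, map_mul π n v] at h1
      exact mul_left_cancel (mul_right_cancel h1)
    have h3 : (t * v * t⁻¹) * v⁻¹ ∈ π.ker := by
      rw [MonoidHom.mem_ker, map_mul, h2, ← map_mul, mul_inv_cancel, map_one]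
    have h4 := (hkm _).1 h3
    have h5 : (t : G) * v * (t : G)⁻¹ * (v : G)⁻¹ ∈ Subgroup.zpowers y := h4
    have h6 : (t : G) * v * (t : G)⁻¹ = y ^ i * w ^ (μ * k) := by
      rw [hik]
      have h7 : (t : G) * (y ^ i * w ^ k) * (t : G)⁻¹ =
          ((t : G) * y * (t : G)⁻¹) ^ i * ((t : G) * w * (t : G)⁻¹) ^ k := by
        rw [conj_pow, conj_pow]
        group
      rw [h7, hμ, hty, mul_inv_cancel_right, pow_mul]
    -- so it fixes `w ^ k`
    have h8 : ∃ i' : ℕ, y ^ i * w ^ (μ * k) = y ^ i' * w ^ k := by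
      rw [← mem_powers_iff_mem_zpowers] at h5
      obtain ⟨j, hj⟩ := h5
      have hj' : y ^ j = (t : G) * v * (t : G)⁻¹ * (v : G)⁻¹ := hj
      refine ⟨j + i, ?_⟩
      rw [pow_add, mul_assoc, ← hik, hj', inv_mul_cancel_right, h6]
    obtain ⟨i', hi'⟩ := h8
    have h9 := (hC.uni i i' (μ * k) k hi').2
    have h10 : w ^ (μ * k) = w ^ k := by
      rw [← hC.ow] at h9
      exact pow_eq_pow_iff_modEq.2 h9
    have h11 : (t : G) * w ^ k = w ^ k * t := by
      have h12 : (t : G) * w ^ k * (t : G)⁻¹ = w ^ k := by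
        rw [← conj_pow, hμ, ← pow_mul, h10]
      calc (t : G) * w ^ k = ((t : G) * w ^ k * (t : G)⁻¹) * t := by group
        _ = w ^ k * t := by rw [h12]
    have h13 := hC.fre t htT hty k hk h11
    rw [Subgroup.mem_centralizer_iff] at h13 ⊢
    rintro _ ⟨x', hx', rfl⟩
    obtain ⟨v₂, hv₂⟩ : ∃ v : Cu y, v = n⁻¹ * x' * n := ⟨_, rfl⟩
    have hvV₂ : v₂ ∈ V1 := by
      rw [hv₂]
      have h1 := (Subgroup.mem_normalizer_iff.1 (inv_mem hn) x').1 hx'
      rwa [inv_inv] at h1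
    have hxv₂ : x' = n * v₂ * n⁻¹ := by rw [hv₂]; group
    have h14 : t * v₂ * t⁻¹ = v₂ := by
      apply Subtype.ext
      change (t : G) * v₂ * (t : G)⁻¹ = v₂
      have h15 : (v₂ : G) ∈ V := by
        rw [hV1] at hvV₂
        exact hvV₂
      rw [← h13 _ h15, mul_inv_cancel_right]
    have h16 := hact' v₂ hvV₂
    rw [h14, ← hxv₂] at h16
    change π x' * t' = t' * π x'
    calc π x' * t' = t' * π x' * t'⁻¹ * t' := by rw [← h16]
      _ = t' * π x' := by group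
  -- the number of the modular characters
  have hlow : m ≤ ln (push π b) := by
    have h1 := lby ℓ M hM G H e V γ hL y hC.yV 2 π hQ β hβ (by rw [← hV1]; exact hWcyc)
      (by rw [← hV1]; exact hWne) hC.cyc
    rwa [hC.ind, ← hb] at h1
  have hup : ln (push π b) ≤ ix (V1.map π) δ := lfr ℓ M hM hℓ2 H (push π b) _ δ hLδ hWne hfr
  have hixm : ix (V1.map π) δ = m := le_antisymm hle (hlow.trans hup)
  have hml : m ≤ ℓ - 1 := Nat.le_of_dvd (by have := hpr.two_le; omega) hC.dvd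
  have h3m : 3 * ix (V1.map π) δ < Nat.card (V1.map π) := by
    rw [hixm, hW]
    have h1 : 3 ≤ ℓ := by
      have := hpr.two_le
      omega
    have h2 : m + 1 ≤ ℓ := by omega
    nlinarith
  have hcd : ∃ (K : ℕ) (g : Fin m → H → ℂ), Cd M ℓ (push π b) (V1.map π) m K g := by
    rw [← hixm]
    exact stf ℓ M hM hℓ2 H (push π b) (V1.map π) δ hLδ hfr (hle.trans hlow) h3m
  obtain ⟨K, g, hKg⟩ := hcd
  refine ⟨K, g, hL, hC.yV, by norm_num, hQ, hβ, hC.ind, ?_⟩
  rw [← hV1, ← hb]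
  exact hKg

/-- SYX -/
theorem syx (lby : LbyStmt) (stf : StfStmt) (lsb : T3.LsbStmt) (loc : T3.LocStmt)
    (psg : T3.PsgStmt) (qt3 : T8.Qt3Stmt) (lfr : T8.LfrStmt) : SyxStmt := by
  intro ℓ _ M _ hM hℓ2 G _ _ e V γ hL y w m hC
  have hF : GoodF ℓ (FF M) := H50.fld ℓ Fact.out M hM
  obtain ⟨β, hβ⟩ := (loc ℓ (FF M) hF G e V γ hL y hC.yV).1
  have hyC : y ∈ Cu y := Subgroup.mem_centralizer_singleton_iff.2 rfl
  obtain ⟨z, hz⟩ : ∃ z : Cu y, z = ⟨y, hyC⟩ := ⟨_, rfl⟩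
  have hzc : z ∈ Subgroup.center (Cu y) := by
    rw [Subgroup.mem_center_iff, hz]
    intro g
    apply Subtype.ext
    exact Subgroup.mem_centralizer_singleton_iff.1 g.2
  have := C2.H82.zpowers_normal hzc
  have hQ : C2.Qn (ℓ ^ 2) y (QuotientGroup.mk' (Subgroup.zpowers z)) := by
    refine ⟨hC.oy, QuotientGroup.mk'_surjective _, ?_⟩
    intro c
    rw [← MonoidHom.mem_ker, QuotientGroup.ker_mk', Subgroup.mem_zpowers_iff,
      Subgroup.mem_zpowers_iff]
    constructor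
    · rintro ⟨i, hi⟩
      refine ⟨i, ?_⟩
      rw [← hi, hz]
      rfl
    · rintro ⟨i, hi⟩
      refine ⟨i, Subtype.ext ?_⟩
      rw [hz]
      exact hi
  obtain ⟨K, g, h⟩ := syx_core lby stf lsb psg qt3 lfr ℓ M hM hℓ2 G
    (Cu y ⧸ Subgroup.zpowers z) e V γ hL y w m hC β hβ _ hQ
  exact ⟨_, _, inferInstance, β, _, K, g, h⟩

end Pool.Agent.PP.T12.H1
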